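import Pool.Agent.Helper92_SBG.Rd

/-!
# ISO: dimensions of isotropic subspaces (`l1 ≠ 0`)
-/

set_option autoImplicit false

namespace Pool.Agent.SBG.H85

open Sy Pool.Agent.SBG

/-! ### the abstract bound -/

theorem abs_bound {K V : Type*} [Field K] [AddCommGroup V] [Module K V] [FiniteDimensional K V]
    (B : V →ₗ[K] V →ₗ[K] K) (L W : Submodule K V) (hL : ∀ x ∈ L, ∀ y ∈ L, B x y = 0)
    (hW : ∀ x ∈ W, (∀ y ∈ W, B x y = 0) → x = 0) :
    2 * Module.finrank K L + Module.finrank K W ≤ 2 * Module.finrank K V := by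
  set f : L →ₗ[K] Module.Dual K V := B.domRestrict L with hf
  have h1 : Module.finrank K (LinearMap.range f) + Module.finrank K (LinearMap.ker f) =
      Module.finrank K L := LinearMap.finrank_range_add_finrank_ker f
  have h2 : LinearMap.range f ≤ L.dualAnnihilator := by
    rintro _ ⟨x, rfl⟩
    rw [Submodule.mem_dualAnnihilator]
    intro y hy
    exact hL x x.2 y hy
  have h3 : Module.finrank K L + Module.finrank K L.dualAnnihilator = Module.finrank K V :=
    Subspace.finrank_add_finrank_dualAnnihilator_eq L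
  have h4 : Module.finrank K (LinearMap.range f) ≤ Module.finrank K L.dualAnnihilator :=
    Submodule.finrank_mono h2
  have h5 : Module.finrank K (LinearMap.ker f) ≤ Module.finrank K (LinearMap.ker B) := by
    set j : LinearMap.ker f →ₗ[K] LinearMap.ker B :=
      LinearMap.codRestrict (LinearMap.ker B) (L.subtype.comp (LinearMap.ker f).subtype)
        (fun x => by
          have := x.2
          rw [LinearMap.mem_ker] at this ⊢
          exact this) with hj
    apply LinearMap.finrank_le_finrank_of_injective (f := j)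
    intro x y hxy
    have h := congrArg (fun z : LinearMap.ker B => (z : V)) hxy
    exact Subtype.ext (Subtype.ext h)
  have h6 : Disjoint (LinearMap.ker B) W := by
    rw [Submodule.disjoint_def]
    intro x hx hxW
    apply hW x hxW
    intro y _
    rw [LinearMap.mem_ker] at hx
    rw [hx]
    rfl
  have h7 := Submodule.finrank_add_finrank_le_of_disjoint h6
  omega

theorem sub_bound {K V : Type*} [Field K] [AddCommGroup V] [Module K V] [FiniteDimensional K V]
    (B : V →ₗ[K] V →ₗ[K] K) (U L W : Submodule K V) (hLU : L ≤ U) (hWU : W ≤ U)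
    (hL : ∀ x ∈ L, ∀ y ∈ L, B x y = 0)
    (hW : ∀ x ∈ W, (∀ y ∈ W, B x y = 0) → x = 0) :
    2 * Module.finrank K L + Module.finrank K W ≤ 2 * Module.finrank K U := by
  have h := abs_bound (B.domRestrict₁₂ U U) (L.comap U.subtype) (W.comap U.subtype)
    (fun x hx y hy => hL x hx y hy)
    (fun x hx hxy => by
      apply Subtype.ext
      apply hW x hx
      intro y hy
      exact hxy ⟨y, hWU hy⟩ hy)
  rw [(Submodule.comapSubtypeEquivOfLe hLU).finrank_eq,
    (Submodule.comapSubtypeEquivOfLe hWU).finrank_eq] at h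
  exact h

/-! ### coordinate subspaces -/

theorem mem_VS {ι : Type} {S : ι → Prop} {x : ι → ℚ} : x ∈ VS S ↔ ∀ c, ¬ S c → x c = 0 := Iff.rfl

theorem VS_mono {ι : Type} {S S' : ι → Prop} (h : ∀ c, S c → S' c) : VS S ≤ VS S' :=
  fun _ hx c hc => hx c fun h' => hc (h c h')

/-- a coordinate subspace is a space of functions -/
noncomputable def VSe {ι : Type} (S : ι → Prop) : VS S ≃ₗ[ℚ] ({c // S c} → ℚ) where
  toFun x c := (x : ι → ℚ) c
  map_add' _ _ := rfl
  map_smul' _ _ := rfl
  invFun f := ⟨fun c => by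
    classical
    exact if h : S c then f ⟨c, h⟩ else 0, fun c hc => by
      classical
      simp only [dif_neg hc]⟩
  left_inv x := by
    apply Subtype.ext
    funext c
    by_cases hc : S c
    · simp only [dif_pos hc]
    · simp only [dif_neg hc]
      exact (x.2 c hc).symm
  right_inv f := by
    funext c
    simp only [dif_pos c.2]

theorem dm_VS {ι : Type} [Fintype ι] (S : ι → Prop) [DecidablePred S] :
    dm (VS S) = (Finset.univ.filter S).card := by
  rw [dm, (VSe S).finrank_eq, Module.finrank_fintype_fun_eq_card, Fintype.card_subtype]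

theorem dm_VS_Ix {k : ℕ} (S : Ix k → Prop) (P : Sy → Prop) (Q : Fin 3 → Prop) [DecidablePred P]
    [DecidablePred Q] (hP : ∀ i s, S (Sum.inl (i, s)) ↔ P s) (hQ : ∀ j, S (Sum.inr j) ↔ Q j) :
    dm (VS S) = k * (Finset.univ.filter P).card + (Finset.univ.filter Q).card := by
  classical
  rw [dm_VS S]
  have h1 : (Finset.univ.filter S : Finset (Ix k)) =
      ((Finset.univ : Finset (Fin k)) ×ˢ Finset.univ.filter P).disjSum (Finset.univ.filter Q) := by
    ext c
    rcases c with ⟨i, s⟩ | j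
    · simp [hP]
    · simp [hQ]
  rw [h1, Finset.card_disjSum, Finset.card_product, Finset.card_univ, Fintype.card_fin]

/-! ### the form -/

/-- the form `l0 * bf0 + l1 * bf1` -/
def gB (k : ℕ) (l0 l1 : ℚ) : (Ix k → ℚ) →ₗ[ℚ] (Ix k → ℚ) →ₗ[ℚ] ℚ :=
  LinearMap.mk₂ ℚ (fun x y => l0 * bf0 x y + l1 * bf1 x y)
    (fun x x' y => by rw [bf0_add_left, bf1_add_left]; ring)
    (fun c x y => by
      have h0 : bf0 (c • x) y = c * bf0 x y := by
        simp only [bf0, be0, Finset.mul_sum, Pi.smul_apply, smul_eq_mul]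
        refine Finset.sum_congr rfl fun i _ => ?_
        ring
      have h1 : bf1 (c • x) y = c * bf1 x y := by
        simp only [bf1, be1, Finset.mul_sum, Pi.smul_apply, smul_eq_mul]
        refine Finset.sum_congr rfl fun i _ => ?_
        ring
      rw [h0, h1, smul_eq_mul]; ring)
    (fun x y y' => by rw [bf0_add_right, bf1_add_right]; ring)
    (fun c x y => by
      have h0 : bf0 x (c • y) = c * bf0 x y := by
        simp only [bf0, be0, Finset.mul_sum, Pi.smul_apply, smul_eq_mul]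
        refine Finset.sum_congr rfl fun i _ => ?_
        ring
      have h1 : bf1 x (c • y) = c * bf1 x y := by
        simp only [bf1, be1, Finset.mul_sum, Pi.smul_apply, smul_eq_mul]
        refine Finset.sum_congr rfl fun i _ => ?_
        ring
      rw [h0, h1, smul_eq_mul]; ring)

theorem gB_apply {k : ℕ} (l0 l1 : ℚ) (x y : Ix k → ℚ) :
    gB k l0 l1 x y = l0 * bf0 x y + l1 * bf1 x y := rfl

/-- the value of the form at a basis vector -/
def tst (l0 l1 : ℚ) (x : Sy → ℚ) : Sy → ℚ
  | a1 => -(l0 * x u1)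
  | a2 => -(l0 * x u2)
  | a3 => -(l0 * x u3)
  | b1 => -(l0 * x v1 + l1 * x u1)
  | b2 => -(l0 * x v2 + l1 * x u2)
  | b3 => -(l0 * x v3 + l1 * x u3)
  | c1 => -(l1 * x v1)
  | c2 => -(l1 * x v2)
  | c3 => -(l1 * x v3)
  | u1 => l0 * x a1 + l1 * x b1
  | u2 => l0 * x a2 + l1 * x b2
  | u3 => l0 * x a3 + l1 * x b3
  | v1 => l0 * x b1 + l1 * x c1
  | v2 => l0 * x b2 + l1 * x c2
  | v3 => l0 * x b3 + l1 * x c3
  | yb => -(l1 * x qb)
  | yc => -(l0 * x qb + l1 * x qc)
  | qb => l0 * x yc + l1 * x yb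
  | qc => l1 * x yc

theorem gB_single {k : ℕ} (l0 l1 : ℚ) (x : Ix k → ℚ) (i : Fin k) (s : Sy) :
    gB k l0 l1 x (Pi.single (Sum.inl (i, s)) 1) =
      tst l0 l1 (fun s' => x (Sum.inl (i, s'))) s := by
  rw [gB_apply]
  have e1 : ∀ i' : Fin k, (fun s' : Sy => (Pi.single (Sum.inl (i, s)) 1 : Ix k → ℚ)
      (Sum.inl (i', s'))) = if i' = i then Pi.single s 1 else 0 := by
    intro i'
    funext s'
    by_cases hi : i' = i
    · subst hi
      rw [if_pos rfl]
      by_cases hs : s' = s
      · subst hs; simp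
      · rw [Pi.single_eq_of_ne hs, Pi.single_eq_of_ne]
        intro h
        apply hs
        injection h with h
        injection h
    · rw [if_neg hi, Pi.single_eq_of_ne]
      · rfl
      · intro h
        apply hi
        injection h with h
        injection h
  have z0 : ∀ w : Sy → ℚ, be0 w 0 = 0 := by
    intro w
    simp [be0]
  have z1 : ∀ w : Sy → ℚ, be1 w 0 = 0 := by
    intro w
    simp [be1]
  have h0 : bf0 x (Pi.single (Sum.inl (i, s)) 1) =
      be0 (fun s' => x (Sum.inl (i, s'))) (Pi.single s 1) := by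
    unfold bf0
    rw [Finset.sum_eq_single i]
    · rw [e1, if_pos rfl]
    · intro i' _ hi
      rw [e1, if_neg hi, z0]
    · intro h
      exact absurd (Finset.mem_univ i) h
  have h1 : bf1 x (Pi.single (Sum.inl (i, s)) 1) =
      be1 (fun s' => x (Sum.inl (i, s'))) (Pi.single s 1) := by
    unfold bf1
    rw [Finset.sum_eq_single i]
    · rw [e1, if_pos rfl]
    · intro i' _ hi
      rw [e1, if_neg hi, z1]
    · intro h
      exact absurd (Finset.mem_univ i) h
  rw [h0, h1]
  cases s <;> simp [be0, be1, tst] <;> ring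

/-- a criterion for the form to be nondegenerate on a coordinate subspace -/
theorem nondeg {k : ℕ} {l0 l1 : ℚ} (P : Sy → Prop)
    (h : ∀ x : Sy → ℚ, (∀ s, ¬ P s → x s = 0) → (∀ s, P s → tst l0 l1 x s = 0) → ∀ s, x s = 0)
    (S : Ix k → Prop) (hS : ∀ i s, S (Sum.inl (i, s)) ↔ P s) (hS' : ∀ j, ¬ S (Sum.inr j)) :
    ∀ x ∈ VS S, (∀ y ∈ VS S, gB k l0 l1 x y = 0) → x = 0 := by
  intro x hx hxy
  funext c
  rcases c with ⟨i, s⟩ | j
  · apply h (fun s' => x (Sum.inl (i, s')))
    · intro s' hs'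
      exact hx _ fun h' => hs' ((hS i s').1 h')
    · intro s' hs'
      rw [← gB_single]
      apply hxy
      intro c hc
      rw [Pi.single_eq_of_ne]
      rintro rfl
      exact hc ((hS i s').2 hs')
  · exact hx _ (hS' j)

/-- the bound for coordinate subspaces -/
theorem coord_bound {k : ℕ} {l0 l1 : ℚ} (L : Submodule ℚ (Ix k → ℚ)) (hL : Iso l0 l1 L)
    (P P' : Sy → Prop) (Q : Fin 3 → Prop) [DecidablePred P] [DecidablePred P'] [DecidablePred Q]
    (hPP : ∀ s, P' s → P s)
    (h : ∀ x : Sy → ℚ, (∀ s, ¬ P' s → x s = 0) → (∀ s, P' s → tst l0 l1 x s = 0) → ∀ s, x s = 0)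
    (S : Ix k → Prop) (hS : ∀ i s, S (Sum.inl (i, s)) ↔ P s) (hSQ : ∀ j, S (Sum.inr j) ↔ Q j) :
    2 * dm (L ⊓ VS S) + k * (Finset.univ.filter P').card ≤
      2 * (k * (Finset.univ.filter P).card + (Finset.univ.filter Q).card) := by
  set S' : Ix k → Prop := fun c => ∃ p : Fin k × Sy, c = Sum.inl p ∧ P' p.2 with hS'
  have hS1 : ∀ i s, S' (Sum.inl (i, s)) ↔ P' s := by
    intro i s
    constructor
    · rintro ⟨p, hp, hp2⟩
      injection hp with hp
      subst hp
      exact hp2
    · intro hs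
      exact ⟨(i, s), rfl, hs⟩
  have hS2 : ∀ j, ¬ S' (Sum.inr j) := by
    rintro j ⟨p, hp, _⟩
    cases hp
  have h1 := sub_bound (gB k l0 l1) (VS S) (L ⊓ VS S) (VS S') inf_le_right
    (VS_mono fun c hc => by
      rcases c with ⟨i, s⟩ | j
      · exact (hS i s).2 (hPP s ((hS1 i s).1 hc))
      · exact absurd hc (hS2 j))
    (fun x hx y hy => hL x hx.1 y hy.1) (nondeg P' h S' hS1 hS2)
  have h2 := dm_VS_Ix S P Q hS hSQ
  have h3 := dm_VS_Ix S' P' (fun _ => False) hS1 (fun j => iff_of_false (hS2 j) (fun h => h))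
  have h4 : (Finset.univ.filter fun _ : Fin 3 => False).card = 0 := by simp
  rw [h4, add_zero] at h3
  change 2 * dm (L ⊓ VS S) + dm (VS S') ≤ 2 * dm (VS S) at h1
  rw [h2, h3] at h1
  exact h1

/-! ### the radical -/

/-- `radv` as a linear map -/
def radL (k : ℕ) (l0 l1 : ℚ) : (Fin k → ℚ) →ₗ[ℚ] (Ix k → ℚ) where
  toFun t := radv l0 l1 t
  map_add' t t' := by
    funext c
    rcases c with ⟨i, s⟩ | j
    · cases s <;> simp [radv] <;> ring
    · simp [radv]
  map_smul' a t := by
    funext c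
    rcases c with ⟨i, s⟩ | j
    · cases s <;> simp [radv] <;> ring
    · simp [radv]

theorem radL_apply {k : ℕ} (l0 l1 : ℚ) (t : Fin k → ℚ) : radL k l0 l1 t = radv l0 l1 t := rfl

theorem range_radL (k : ℕ) (l0 l1 : ℚ) : LinearMap.range (radL k l0 l1) = Rad k l0 l1 := by
  ext x
  constructor
  · rintro ⟨t, rfl⟩
    exact ⟨t, rfl⟩
  · rintro ⟨t, rfl⟩
    exact ⟨t, rfl⟩

theorem dm_Rad (k : ℕ) (l0 : ℚ) {l1 : ℚ} (h : l1 ≠ 0) : dm (Rad k l0 l1) = k := by
  rw [dm, ← range_radL, LinearMap.finrank_range_of_inj]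
  · simp
  · intro t t' htt
    funext i
    have h1 := congrFun htt (Sum.inl (i, a3))
    rw [radL_apply, radL_apply] at h1
    simp only [radv] at h1
    exact mul_right_cancel₀ (pow_ne_zero 2 h) h1

theorem gB_radv {k : ℕ} (l0 l1 : ℚ) (t : Fin k → ℚ) (y : Ix k → ℚ) :
    l0 * bf0 (radv l0 l1 t) y + l1 * bf1 (radv l0 l1 t) y = 0 := by
  unfold bf0 bf1
  rw [Finset.mul_sum, Finset.mul_sum, ← Finset.sum_add_distrib]
  apply Finset.sum_eq_zero
  intro i _
  simp only [be0, be1, radv]
  ring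

theorem iso_sup {k : ℕ} {l0 l1 : ℚ} {L : Submodule ℚ (Ix k → ℚ)} (hL : Iso l0 l1 L) :
    Iso l0 l1 (L ⊔ Rad k l0 l1) := by
  intro x hx y hy
  obtain ⟨x1, hx1, x2, ⟨t, rfl⟩, rfl⟩ := Submodule.mem_sup.1 hx
  obtain ⟨y1, hy1, y2, ⟨t', rfl⟩, rfl⟩ := Submodule.mem_sup.1 hy
  rw [bf0_add_left, bf0_add_right, bf1_add_left, bf1_add_right, bf0_swap (radv l0 l1 t') x1,
    bf1_swap (radv l0 l1 t') x1]
  have e1 := hL x1 hx1 y1 hy1
  have e2 := gB_radv l0 l1 t (y1 + radv l0 l1 t')
  have e3 := gB_radv l0 l1 t' x1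
  linear_combination e1 + e2 - e3

theorem iso_mono {k : ℕ} {l0 l1 : ℚ} {L L' : Submodule ℚ (Ix k → ℚ)} (h : L' ≤ L)
    (hL : Iso l0 l1 L) : Iso l0 l1 L' := fun x hx y hy => hL x (h hx) y (h hy)

/-! ### the statement -/

theorem nd_all {l0 l1 : ℚ} (h : l1 ≠ 0) (x : Sy → ℚ)
    (h1 : ∀ s, ¬ (s ≠ a1 ∧ s ≠ a2 ∧ s ≠ a3) → x s = 0)
    (h2 : ∀ s, (s ≠ a1 ∧ s ≠ a2 ∧ s ≠ a3) → tst l0 l1 x s = 0) : ∀ s, x s = 0 := by
  have A1 : x a1 = 0 := h1 a1 (by simp)
  have A2 : x a2 = 0 := h1 a2 (by simp)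
  have A3 : x a3 = 0 := h1 a3 (by simp)
  have B1 : x b1 = 0 := by
    have := h2 u1 (by simp)
    simp only [tst, A1, mul_zero, zero_add] at this
    exact (mul_eq_zero.1 this).resolve_left h
  have B2 : x b2 = 0 := by
    have := h2 u2 (by simp)
    simp only [tst, A2, mul_zero, zero_add] at this
    exact (mul_eq_zero.1 this).resolve_left h
  have B3 : x b3 = 0 := by
    have := h2 u3 (by simp)
    simp only [tst, A3, mul_zero, zero_add] at this
    exact (mul_eq_zero.1 this).resolve_left h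
  have C1 : x c1 = 0 := by
    have := h2 v1 (by simp)
    simp only [tst, B1, mul_zero, zero_add] at this
    exact (mul_eq_zero.1 this).resolve_left h
  have C2 : x c2 = 0 := by
    have := h2 v2 (by simp)
    simp only [tst, B2, mul_zero, zero_add] at this
    exact (mul_eq_zero.1 this).resolve_left h
  have C3 : x c3 = 0 := by
    have := h2 v3 (by simp)
    simp only [tst, B3, mul_zero, zero_add] at this
    exact (mul_eq_zero.1 this).resolve_left h
  have V1 : x v1 = 0 := by
    have := h2 c1 (by simp)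
    simp only [tst, neg_eq_zero] at this
    exact (mul_eq_zero.1 this).resolve_left h
  have V2 : x v2 = 0 := by
    have := h2 c2 (by simp)
    simp only [tst, neg_eq_zero] at this
    exact (mul_eq_zero.1 this).resolve_left h
  have V3 : x v3 = 0 := by
    have := h2 c3 (by simp)
    simp only [tst, neg_eq_zero] at this
    exact (mul_eq_zero.1 this).resolve_left h
  have U1 : x u1 = 0 := by
    have := h2 b1 (by simp)
    simp only [tst, V1, mul_zero, zero_add, neg_eq_zero] at this
    exact (mul_eq_zero.1 this).resolve_left h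
  have U2 : x u2 = 0 := by
    have := h2 b2 (by simp)
    simp only [tst, V2, mul_zero, zero_add, neg_eq_zero] at this
    exact (mul_eq_zero.1 this).resolve_left h
  have U3 : x u3 = 0 := by
    have := h2 b3 (by simp)
    simp only [tst, V3, mul_zero, zero_add, neg_eq_zero] at this
    exact (mul_eq_zero.1 this).resolve_left h
  have QB : x qb = 0 := by
    have := h2 yb (by simp)
    simp only [tst, neg_eq_zero] at this
    exact (mul_eq_zero.1 this).resolve_left h
  have QC : x qc = 0 := by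
    have := h2 yc (by simp)
    simp only [tst, QB, mul_zero, zero_add, neg_eq_zero] at this
    exact (mul_eq_zero.1 this).resolve_left h
  have YC : x yc = 0 := by
    have := h2 qc (by simp)
    simp only [tst] at this
    exact (mul_eq_zero.1 this).resolve_left h
  have YB : x yb = 0 := by
    have := h2 qb (by simp)
    simp only [tst, YC, mul_zero, zero_add] at this
    exact (mul_eq_zero.1 this).resolve_left h
  intro s
  cases s <;> assumption

/-- the set `b3, c3, u3, v3, b2, c2, u2, v2` -/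
def P8 (s : Sy) : Prop := s = b3 ∨ s = c3 ∨ s = u3 ∨ s = v3 ∨ s = b2 ∨ s = c2 ∨ s = u2 ∨ s = v2

instance : DecidablePred P8 := fun s => by unfold P8; infer_instance

theorem nd_P8 {l0 l1 : ℚ} (h : l1 ≠ 0) (x : Sy → ℚ) (h1 : ∀ s, ¬ P8 s → x s = 0)
    (h2 : ∀ s, P8 s → tst l0 l1 x s = 0) : ∀ s, x s = 0 := by
  have A2 : x a2 = 0 := h1 a2 (by simp [P8])
  have A3 : x a3 = 0 := h1 a3 (by simp [P8])
  have B2 : x b2 = 0 := by
    have := h2 u2 (by simp [P8])
    simp only [tst, A2, mul_zero, zero_add] at this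
    exact (mul_eq_zero.1 this).resolve_left h
  have B3 : x b3 = 0 := by
    have := h2 u3 (by simp [P8])
    simp only [tst, A3, mul_zero, zero_add] at this
    exact (mul_eq_zero.1 this).resolve_left h
  have C2 : x c2 = 0 := by
    have := h2 v2 (by simp [P8])
    simp only [tst, B2, mul_zero, zero_add] at this
    exact (mul_eq_zero.1 this).resolve_left h
  have C3 : x c3 = 0 := by
    have := h2 v3 (by simp [P8])
    simp only [tst, B3, mul_zero, zero_add] at this
    exact (mul_eq_zero.1 this).resolve_left h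
  have V2 : x v2 = 0 := by
    have := h2 c2 (by simp [P8])
    simp only [tst, neg_eq_zero] at this
    exact (mul_eq_zero.1 this).resolve_left h
  have V3 : x v3 = 0 := by
    have := h2 c3 (by simp [P8])
    simp only [tst, neg_eq_zero] at this
    exact (mul_eq_zero.1 this).resolve_left h
  have U2 : x u2 = 0 := by
    have := h2 b2 (by simp [P8])
    simp only [tst, V2, mul_zero, zero_add, neg_eq_zero] at this
    exact (mul_eq_zero.1 this).resolve_left h
  have U3 : x u3 = 0 := by
    have := h2 b3 (by simp [P8])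
    simp only [tst, V3, mul_zero, zero_add, neg_eq_zero] at this
    exact (mul_eq_zero.1 this).resolve_left h
  intro s
  by_cases hs : P8 s
  · rcases hs with rfl | rfl | rfl | rfl | rfl | rfl | rfl | rfl <;> assumption
  · exact h1 s hs

theorem nd_bc {l0 l1 : ℚ} (h : l1 ≠ 0) (x : Sy → ℚ)
    (h1 : ∀ s, ¬ (s = b3 ∨ s = c3 ∨ s = u3 ∨ s = v3) → x s = 0)
    (h2 : ∀ s, (s = b3 ∨ s = c3 ∨ s = u3 ∨ s = v3) → tst l0 l1 x s = 0) : ∀ s, x s = 0 := by
  have A3 : x a3 = 0 := h1 a3 (by simp)
  have B3 : x b3 = 0 := by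
    have := h2 u3 (by simp)
    simp only [tst, A3, mul_zero, zero_add] at this
    exact (mul_eq_zero.1 this).resolve_left h
  have C3 : x c3 = 0 := by
    have := h2 v3 (by simp)
    simp only [tst, B3, mul_zero, zero_add] at this
    exact (mul_eq_zero.1 this).resolve_left h
  have V3 : x v3 = 0 := by
    have := h2 c3 (by simp)
    simp only [tst, neg_eq_zero] at this
    exact (mul_eq_zero.1 this).resolve_left h
  have U3 : x u3 = 0 := by
    have := h2 b3 (by simp)
    simp only [tst, V3, mul_zero, zero_add, neg_eq_zero] at this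
    exact (mul_eq_zero.1 this).resolve_left h
  intro s
  by_cases hs : s = b3 ∨ s = c3 ∨ s = u3 ∨ s = v3
  · rcases hs with rfl | rfl | rfl | rfl <;> assumption
  · exact h1 s hs

theorem nd_ab {l0 l1 : ℚ} (h : l1 ≠ 0) (h0 : l0 ≠ 0) (x : Sy → ℚ)
    (h1 : ∀ s, ¬ (s = a3 ∨ s = b3 ∨ s = u3 ∨ s = v3) → x s = 0)
    (h2 : ∀ s, (s = a3 ∨ s = b3 ∨ s = u3 ∨ s = v3) → tst l0 l1 x s = 0) : ∀ s, x s = 0 := by
  have C3 : x c3 = 0 := h1 c3 (by simp)
  have B3 : x b3 = 0 := by
    have := h2 v3 (by simp)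
    simp only [tst, C3, mul_zero, add_zero] at this
    exact (mul_eq_zero.1 this).resolve_left h0
  have A3 : x a3 = 0 := by
    have := h2 u3 (by simp)
    simp only [tst, B3, mul_zero, add_zero] at this
    exact (mul_eq_zero.1 this).resolve_left h0
  have U3 : x u3 = 0 := by
    have := h2 a3 (by simp)
    simp only [tst, neg_eq_zero] at this
    exact (mul_eq_zero.1 this).resolve_left h0
  have V3 : x v3 = 0 := by
    have := h2 b3 (by simp)
    simp only [tst, U3, mul_zero, add_zero, neg_eq_zero] at this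
    exact (mul_eq_zero.1 this).resolve_left h0
  intro s
  by_cases hs : s = a3 ∨ s = b3 ∨ s = u3 ∨ s = v3
  · rcases hs with rfl | rfl | rfl | rfl <;> assumption
  · exact h1 s hs

theorem isS_inl {k : ℕ} (s s' : Sy) (i : Fin k) : isS s (Sum.inl (i, s') : Ix k) ↔ s' = s := by
  constructor
  · rintro ⟨i', h⟩
    injection h with h
    injection h
  · rintro rfl
    exact ⟨i, rfl⟩

theorem isS_inr {k : ℕ} (s : Sy) (j : Fin 3) : ¬ isS s (Sum.inr j : Ix k) := by
  rintro ⟨i', h⟩
  cases h

theorem wtI_inl {k : ℕ} (s : Sy) (i : Fin k) : wtI (Sum.inl (i, s) : Ix k) = s.wt := rfl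

theorem wtI_inr {k : ℕ} (j : Fin 3) : wtI (Sum.inr j : Ix k) = (j : ℕ) + 1 := rfl

theorem le_dm_split {k : ℕ} (L : Submodule ℚ (Ix k → ℚ)) (S T U : Ix k → Prop)
    (hST : ∀ c, S c → ¬ T c) (hS : ∀ c, S c → U c) (hT : ∀ c, T c → U c) :
    dm (L ⊓ VS S) + dm (L ⊓ VS T) ≤ dm (L ⊓ VS U) := by
  have hd : Disjoint (L ⊓ VS S) (L ⊓ VS T) := by
    rw [Submodule.disjoint_def]
    intro x hx hx'
    funext c
    by_cases hc : S c
    · exact hx'.2 c (hST c hc)
    · exact hx.2 c hc
  have h1 := Submodule.finrank_sup_add_finrank_inf_eq (L ⊓ VS S) (L ⊓ VS T)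
  rw [hd.eq_bot, finrank_bot, add_zero] at h1
  rw [← h1]
  apply Submodule.finrank_mono
  apply sup_le
  · exact inf_le_inf le_rfl (VS_mono hS)
  · exact inf_le_inf le_rfl (VS_mono hT)

theorem iso : IsoStmt := by
  intro k l0 l1 L hL h
  have r1 : ∀ L' : Submodule ℚ (Ix k → ℚ), Iso l0 l1 L' → dm L' ≤ 11 * k + 3 := by
    intro L' hL'
    have h1 := coord_bound L' hL' (fun _ => True) (fun s => s ≠ a1 ∧ s ≠ a2 ∧ s ≠ a3)
      (fun _ => True) (fun _ _ => trivial) (nd_all h) (fun _ => True) (fun _ _ => Iff.rfl)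
      (fun _ => Iff.rfl)
    have h2 : (L' ⊓ VS (fun _ : Ix k => True)) = L' := by
      apply inf_eq_left.2
      intro x _ c hc
      exact absurd trivial hc
    rw [h2] at h1
    have e1 : (Finset.univ.filter fun s : Sy => s ≠ a1 ∧ s ≠ a2 ∧ s ≠ a3).card = 16 := by decide
    have e2 : (Finset.univ.filter fun _ : Sy => True).card = 19 := by decide
    have e3 : (Finset.univ.filter fun _ : Fin 3 => True).card = 3 := by decide
    rw [e1, e2, e3] at h1
    omega
  have r3 : dm (VS fun c : Ix k => 3 ≤ wtI c) = 9 * k + 1 := by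
    rw [dm_VS_Ix (fun c : Ix k => 3 ≤ wtI c) (fun s => 3 ≤ s.wt) (fun j => 3 ≤ (j : ℕ) + 1)
      (fun _ _ => Iff.rfl) (fun _ => Iff.rfl)]
    have e1 : (Finset.univ.filter fun s : Sy => 3 ≤ s.wt).card = 9 := by decide
    have e2 : (Finset.univ.filter fun j : Fin 3 => 3 ≤ (j : ℕ) + 1).card = 1 := by decide
    rw [e1, e2]
    ring
  have r4 : dm (VS fun c : Ix k => 4 ≤ wtI c) = 4 * k := by
    rw [dm_VS_Ix (fun c : Ix k => 4 ≤ wtI c) (fun s => 4 ≤ s.wt) (fun j => 4 ≤ (j : ℕ) + 1)
      (fun _ _ => Iff.rfl) (fun _ => Iff.rfl)]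
    have e1 : (Finset.univ.filter fun s : Sy => 4 ≤ s.wt).card = 4 := by decide
    have e2 : (Finset.univ.filter fun j : Fin 3 => 4 ≤ (j : ℕ) + 1).card = 0 := by decide
    rw [e1, e2]
    ring
  have ruv : dm (VS fun c : Ix k => isS u3 c ∨ isS v3 c) = 2 * k := by
    rw [dm_VS_Ix (fun c : Ix k => isS u3 c ∨ isS v3 c) (fun s => s = u3 ∨ s = v3)
      (fun _ => False)
      (fun i s => by rw [isS_inl, isS_inl])
      (fun j => iff_of_false (fun h => h.elim (isS_inr u3 j) (isS_inr v3 j)) (fun h => h))]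
    have e1 : (Finset.univ.filter fun s : Sy => s = u3 ∨ s = v3).card = 2 := by decide
    have e2 : (Finset.univ.filter fun _ : Fin 3 => False).card = 0 := by decide
    rw [e1, e2]
    ring
  refine ⟨r1 L hL, ?_, ?_, ?_, ?_, ?_, ?_, ?_, ?_⟩
  · have h1 := coord_bound L hL (fun s => 2 ≤ s.wt) P8 (fun j => 2 ≤ (j : ℕ) + 1)
      (by decide) (nd_P8 h) (fun c => 2 ≤ wtI c) (fun _ _ => Iff.rfl) (fun _ => Iff.rfl)
    have e1 : (Finset.univ.filter P8).card = 8 := by decide
    have e2 : (Finset.univ.filter fun s : Sy => 2 ≤ s.wt).card = 14 := by decide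
    have e3 : (Finset.univ.filter fun j : Fin 3 => 2 ≤ (j : ℕ) + 1).card = 2 := by decide
    rw [e1, e2, e3] at h1
    omega
  · rw [← r3]
    exact Submodule.finrank_mono inf_le_right
  · rw [← r4]
    exact Submodule.finrank_mono inf_le_right
  · have h1 := coord_bound L hL (fun s => 2 ≤ s.wt ∨ s = a3) P8 (fun j => 2 ≤ (j : ℕ) + 1)
      (by decide) (nd_P8 h) (fun c => 2 ≤ wtI c ∨ isS a3 c)
      (fun i s => by rw [isS_inl]; exact Iff.rfl)
      (fun j => by
        constructor
        · rintro (h' | h')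
          · exact h'
          · exact absurd h' (isS_inr a3 j)
        · exact fun h' => Or.inl h')
    have e1 : (Finset.univ.filter P8).card = 8 := by decide
    have e2 : (Finset.univ.filter fun s : Sy => 2 ≤ s.wt ∨ s = a3).card = 15 := by decide
    have e3 : (Finset.univ.filter fun j : Fin 3 => 2 ≤ (j : ℕ) + 1).card = 2 := by decide
    rw [e1, e2, e3] at h1
    omega
  · have h1 := coord_bound L hL (fun s => s = b3 ∨ s = c3 ∨ s = u3 ∨ s = v3)
      (fun s => s = b3 ∨ s = c3 ∨ s = u3 ∨ s = v3) (fun _ => False)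
      (fun _ h' => h') (nd_bc h) (fun c => isS b3 c ∨ isS c3 c ∨ isS u3 c ∨ isS v3 c)
      (fun i s => by rw [isS_inl, isS_inl, isS_inl, isS_inl])
      (fun j => by
        constructor
        · rintro (h' | h' | h' | h')
          · exact isS_inr _ j h'
          · exact isS_inr _ j h'
          · exact isS_inr _ j h'
          · exact isS_inr _ j h'
        · exact fun h' => h'.elim)
    have e1 : (Finset.univ.filter fun s : Sy => s = b3 ∨ s = c3 ∨ s = u3 ∨ s = v3).card = 4 := by
      decide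
    have e3 : (Finset.univ.filter fun _ : Fin 3 => False).card = 0 := by decide
    rw [e1, e3] at h1
    have h2 := le_dm_split L (fun c => isS b3 c ∨ isS c3 c) (fun c => isS u3 c ∨ isS v3 c)
      (fun c => isS b3 c ∨ isS c3 c ∨ isS u3 c ∨ isS v3 c)
      (fun c hc hc' => by
        rcases c with ⟨i, s⟩ | j
        · rw [isS_inl, isS_inl] at hc hc'
          rcases hc with rfl | rfl <;> rcases hc' with h' | h' <;> cases h'
        · rcases hc with hc | hc <;> exact isS_inr _ j hc)
      (fun c hc => by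
        rcases hc with hc | hc
        · exact Or.inl hc
        · exact Or.inr (Or.inl hc))
      (fun c hc => Or.inr (Or.inr hc))
    omega
  · intro h0
    have h1 := coord_bound L hL (fun s => s = a3 ∨ s = b3 ∨ s = u3 ∨ s = v3)
      (fun s => s = a3 ∨ s = b3 ∨ s = u3 ∨ s = v3) (fun _ => False)
      (fun _ h' => h') (nd_ab h h0) (fun c => isS a3 c ∨ isS b3 c ∨ isS u3 c ∨ isS v3 c)
      (fun i s => by rw [isS_inl, isS_inl, isS_inl, isS_inl])
      (fun j => by
        constructor
        · rintro (h' | h' | h' | h')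
          · exact isS_inr _ j h'
          · exact isS_inr _ j h'
          · exact isS_inr _ j h'
          · exact isS_inr _ j h'
        · exact fun h' => h'.elim)
    have e1 : (Finset.univ.filter fun s : Sy => s = a3 ∨ s = b3 ∨ s = u3 ∨ s = v3).card = 4 := by
      decide
    have e3 : (Finset.univ.filter fun _ : Fin 3 => False).card = 0 := by decide
    rw [e1, e3] at h1
    have h2 := le_dm_split L (fun c => isS a3 c ∨ isS b3 c) (fun c => isS u3 c ∨ isS v3 c)
      (fun c => isS a3 c ∨ isS b3 c ∨ isS u3 c ∨ isS v3 c)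
      (fun c hc hc' => by
        rcases c with ⟨i, s⟩ | j
        · rw [isS_inl, isS_inl] at hc hc'
          rcases hc with rfl | rfl <;> rcases hc' with h' | h' <;> cases h'
        · rcases hc with hc | hc <;> exact isS_inr _ j hc)
      (fun c hc => by
        rcases hc with hc | hc
        · exact Or.inl hc
        · exact Or.inr (Or.inl hc))
      (fun c hc => Or.inr (Or.inr hc))
    omega
  · have h1 := r1 _ (iso_sup hL)
    have h2 := Submodule.finrank_sup_add_finrank_inf_eq L (Rad k l0 l1)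
    have h3 := dm_Rad k l0 h
    change dm (L ⊔ Rad k l0 l1) + dm (L ⊓ Rad k l0 l1) = dm L + dm (Rad k l0 l1) at h2
    omega
  · have h2 := Submodule.finrank_sup_add_finrank_inf_eq (L ⊓ VS fun c : Ix k => 3 ≤ wtI c)
      (VS fun c : Ix k => isS u3 c ∨ isS v3 c)
    have hle : (VS fun c : Ix k => isS u3 c ∨ isS v3 c) ≤ VS fun c : Ix k => 3 ≤ wtI c := by
      apply VS_mono
      rintro c (⟨i, rfl⟩ | ⟨i, rfl⟩)
      · exact le_rfl
      · exact le_rfl
    have h3 : dm ((L ⊓ VS fun c : Ix k => 3 ≤ wtI c) ⊔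
        (VS fun c : Ix k => isS u3 c ∨ isS v3 c)) ≤ 9 * k + 1 := by
      rw [← r3]
      exact Submodule.finrank_mono (sup_le inf_le_right hle)
    have h4 : dm ((L ⊓ VS fun c : Ix k => 3 ≤ wtI c) ⊓
        (VS fun c : Ix k => isS u3 c ∨ isS v3 c)) ≤
        dm (L ⊓ VS fun c : Ix k => isS u3 c ∨ isS v3 c) :=
      Submodule.finrank_mono (inf_le_inf inf_le_left le_rfl)
    change dm ((L ⊓ VS fun c : Ix k => 3 ≤ wtI c) ⊔
        (VS fun c : Ix k => isS u3 c ∨ isS v3 c)) + dm ((L ⊓ VS fun c : Ix k => 3 ≤ wtI c) ⊓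
        (VS fun c : Ix k => isS u3 c ∨ isS v3 c)) = dm (L ⊓ VS fun c : Ix k => 3 ≤ wtI c) +
        dm (VS fun c : Ix k => isS u3 c ∨ isS v3 c) at h2
    omega

end Pool.Agent.SBG.H85
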