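import Pool.Agent.Helper92_SBG.Rd

/-!
# SP2: the general separation statement
-/

set_option autoImplicit false

namespace Pool.Agent.SBG.H85

open Sy Pool.Agent.SBG

variable {k : ℕ}

theorem Dn_nsmul (E : ℕ) (w : W k) : Dn (E • w) = E • Dn w := by
  rw [← Dh_apply, map_nsmul, Dh_apply]

theorem Dn_neg (w : W k) : Dn (-w) = -Dn w := by
  rw [← Dh_apply, map_neg, Dh_apply]

theorem Dn_zero : Dn (0 : W k) = 0 := by
  rw [← Dh_apply, map_zero]

/-- the elements of `P` whose images under the powers of `D` are in `P` -/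
def NN (P : AddSubgroup (W k)) : AddSubgroup (W k) where
  carrier := {x | x ∈ P ∧ Dn x ∈ P ∧ Dn (Dn x) ∈ P ∧ Dn (Dn (Dn x)) ∈ P}
  zero_mem' := by
    refine ⟨P.zero_mem, ?_, ?_, ?_⟩ <;> simp only [Dn_zero] <;> exact P.zero_mem
  add_mem' := by
    rintro x y ⟨h0, h1, h2, h3⟩ ⟨g0, g1, g2, g3⟩
    refine ⟨P.add_mem h0 g0, ?_, ?_, ?_⟩
    · rw [Dn_add]; exact P.add_mem h1 g1
    · rw [Dn_add, Dn_add]; exact P.add_mem h2 g2
    · rw [Dn_add, Dn_add, Dn_add]; exact P.add_mem h3 g3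
  neg_mem' := by
    rintro x ⟨h0, h1, h2, h3⟩
    refine ⟨P.neg_mem h0, ?_, ?_, ?_⟩
    · rw [Dn_neg]; exact P.neg_mem h1
    · rw [Dn_neg, Dn_neg]; exact P.neg_mem h2
    · rw [Dn_neg, Dn_neg, Dn_neg]; exact P.neg_mem h3

theorem NN_D {P : AddSubgroup (W k)} {x : W k} (h : x ∈ NN P) : Dn x ∈ NN P := by
  obtain ⟨_, h1, h2, h3⟩ := h
  refine ⟨h1, h2, h3, ?_⟩
  rw [Dn_four]
  exact P.zero_mem

theorem NN_tp {P : AddSubgroup (W k)} {x : W k} (h : x ∈ NN P) (m : ℤ) : tp m x ∈ NN P := by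
  rw [tp_expand]
  unfold Fx
  refine AddSubgroup.add_mem _ (AddSubgroup.add_mem _ (AddSubgroup.add_mem _ h ?_) ?_) ?_
  · exact AddSubgroup.zsmul_mem _ (NN_D h) _
  · exact AddSubgroup.zsmul_mem _ (NN_D (NN_D h)) _
  · exact AddSubgroup.zsmul_mem _ (NN_D (NN_D (NN_D h))) _

theorem NN_E {P : AddSubgroup (W k)} {E : ℕ} (hEP : ∀ w : W k, E • w ∈ P) (w : W k) :
    E • w ∈ NN P := by
  refine ⟨hEP w, ?_, ?_, ?_⟩
  · rw [Dn_nsmul]; exact hEP _
  · rw [Dn_nsmul, Dn_nsmul]; exact hEP _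
  · rw [Dn_nsmul, Dn_nsmul, Dn_nsmul]; exact hEP _

theorem NN_B {R P : AddSubgroup (W k)} (hRP : ∀ x ∈ R, ∀ y : W k, Bf x y ∈ P) {x : W k}
    (hx : x ∈ R) (y : W k) : Bf x y ∈ NN P := by
  have h : Dn (Bf x y) = 0 := Dn_zin _
  refine ⟨hRP x hx y, ?_, ?_, ?_⟩
  · rw [h]; exact P.zero_mem
  · rw [h, Dn_zero]; exact P.zero_mem
  · rw [h, Dn_zero, Dn_zero]; exact P.zero_mem

theorem NN_B' {R P : AddSubgroup (W k)} (hRP : ∀ x ∈ R, ∀ y : W k, Bf x y ∈ P) {x : W k}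
    (hx : x ∈ R) (y : W k) : Bf y x ∈ NN P := by
  rw [Bf_swap x y]
  exact AddSubgroup.neg_mem _ (NN_B hRP hx y)

theorem NN_le {P : AddSubgroup (W k)} {x : W k} (h : x ∈ NN P) : x ∈ P := h.1

theorem tp_sub_self (a E : ℕ) (m : ℤ) (hm : ((a * 40320 * E : ℕ) : ℤ) ∣ m) (y : W k) :
    ∃ w : W k, tp m y = y + E • w := by
  obtain ⟨s, hs⟩ := hm
  set t : ℤ := 6720 * a * s with ht
  have hm' : m = 6 * (E * t) := by
    rw [hs, ht]
    push_cast
    ring
  have h1 : Ring.choose m 1 = E * (6 * t) := by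
    rw [Ring.choose_one_right, hm']
    ring
  have h2 : Ring.choose m 2 = E * (3 * t * (m - 1)) := by
    have h := two_choose m
    have h' : 2 * Ring.choose m 2 = 2 * (E * (3 * t * (m - 1))) := by
      rw [h]
      nth_rewrite 1 [hm']
      ring
    linarith
  have h3 : Ring.choose m 3 = E * (t * (m - 1) * (m - 2)) := by
    have h := six_choose m
    have h' : 6 * Ring.choose m 3 = 6 * (E * (t * (m - 1) * (m - 2))) := by
      rw [h]
      nth_rewrite 1 [hm']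
      ring
    linarith
  refine ⟨(6 * t) • Dn y + (3 * t * (m - 1)) • Dn (Dn y) + (t * (m - 1) * (m - 2)) • Dn (Dn (Dn y)),
    ?_⟩
  have h4 : ∀ (c : ℤ) (w : W k), ((E : ℤ) * c) • w = E • (c • w) := by
    intro c w
    rw [mul_smul, natCast_zsmul]
  rw [tp_expand]
  unfold Fx
  rw [h1, h2, h3, h4, h4, h4, smul_add, smul_add]
  abel

theorem tp_mem_NN {P : AddSubgroup (W k)} {a E : ℕ} (hEP : ∀ w : W k, E • w ∈ P) {m : ℤ}
    (hm : ((a * 40320 * E : ℕ) : ℤ) ∣ m) (y : W k) : tp m y - y ∈ NN P := by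
  obtain ⟨w, hw⟩ := tp_sub_self a E m hm y
  rw [hw, add_sub_cancel_left]
  exact NN_E hEP w

/-- the normal subgroup -/
def NG (k a E : ℕ) (R P : AddSubgroup (W k)) (hPR : P ≤ R)
    (hRP : ∀ x ∈ R, ∀ y : W k, Bf x y ∈ P) : Subgroup (Gp k) where
  carrier := {g | ((a * 40320 * E : ℕ) : ℤ) ∣ g.m ∧ g.x ∈ NN P}
  one_mem' := ⟨by simp, (NN P).zero_mem⟩
  mul_mem' := by
    rintro g h ⟨g1, g2⟩ ⟨h1, h2⟩
    refine ⟨by rw [Gp.mul_m]; exact dvd_add g1 h1, ?_⟩
    rw [Gp.mul_x]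
    exact AddSubgroup.add_mem _ (AddSubgroup.add_mem _ g2 (NN_tp h2 _))
      (NN_B hRP (hPR g2.1) _)
  inv_mem' := by
    rintro g ⟨g1, g2⟩
    refine ⟨by rw [Gp.inv_m]; exact (dvd_neg).2 g1, ?_⟩
    rw [Gp.inv_x]
    exact AddSubgroup.neg_mem _ (NN_tp g2 _)

theorem mem_NG {a E : ℕ} {R P : AddSubgroup (W k)} {hPR : P ≤ R}
    {hRP : ∀ x ∈ R, ∀ y : W k, Bf x y ∈ P} {g : Gp k} :
    g ∈ NG k a E R P hPR hRP ↔ ((a * 40320 * E : ℕ) : ℤ) ∣ g.m ∧ g.x ∈ NN P := Iff.rfl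

theorem NG_normal {a E : ℕ} {R P : AddSubgroup (W k)} (hPR : P ≤ R)
    (hRP : ∀ x ∈ R, ∀ y : W k, Bf x y ∈ P) (hEP : ∀ w : W k, E • w ∈ P) :
    (NG k a E R P hPR hRP).Normal := by
  constructor
  rintro n ⟨h1, h2⟩ g
  refine ⟨?_, ?_⟩
  · have : (g * n * g⁻¹).m = n.m := by
      simp only [Gp.mul_m, Gp.inv_m]
      ring
    rw [this]
    exact h1
  · have e : (g * n * g⁻¹).x = -(tp n.m g.x - g.x) + tp g.m n.x + Bf g.x (tp g.m n.x)
        - Bf g.x (tp n.m g.x - g.x) - Bf (tp g.m n.x) (tp n.m g.x) := by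
      simp only [Gp.mul_x, Gp.mul_m, Gp.inv_x, map_neg, ← tp_add]
      have h3 : g.m + n.m + -g.m = n.m := by ring
      rw [h3]
      simp only [Bf_add_left, Bf_neg_right, Bf_Bf_left, Bf_sub_right, Bf_self]
      abel
    rw [e]
    have t1 := tp_mem_NN (a := a) hEP h1 g.x
    have t2 := NN_tp h2 g.m
    have t3 : tp g.m n.x ∈ R := hPR t2.1
    have t4 : tp n.m g.x - g.x ∈ R := hPR t1.1
    refine AddSubgroup.sub_mem _ (AddSubgroup.sub_mem _ (AddSubgroup.add_mem _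
      (AddSubgroup.add_mem _ (AddSubgroup.neg_mem _ t1) t2) ?_) ?_) ?_
    · exact NN_B' hRP t3 _
    · exact NN_B' hRP t4 _
    · exact NN_B hRP t3 _

/-- two elements with congruent coordinates are in the same coset -/
theorem NG_coset {a E : ℕ} {R P : AddSubgroup (W k)} (hPR : P ≤ R)
    (hRP : ∀ x ∈ R, ∀ y : W k, Bf x y ∈ P) {g h : Gp k}
    (h1 : ((a * 40320 * E : ℕ) : ℤ) ∣ h.m - g.m) (h2 : h.x - g.x ∈ NN P) :
    g⁻¹ * h ∈ NG k a E R P hPR hRP := by
  refine ⟨?_, ?_⟩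
  · rw [Gp.mul_m, Gp.inv_m]
    have : -g.m + h.m = h.m - g.m := by ring
    rw [this]
    exact h1
  · have e : (g⁻¹ * h).x = tp (-g.m) (h.x - g.x) - Bf g.x (h.x - g.x) := by
      rw [Gp.mul_x, Gp.inv_x, Gp.inv_m, Bf_neg_left, Bf_tp, map_sub, Bf_sub_right, Bf_self]
      abel
    rw [e]
    exact AddSubgroup.sub_mem _ (NN_tp h2 _) (NN_B' hRP (hPR h2.1) _)

theorem index_ne_zero_of_smul {P : AddSubgroup (W k)} {E : ℕ} (hE : 0 < E)
    (hEP : ∀ w : W k, E • w ∈ P) : P.index ≠ 0 := by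
  have h1 : IsAddTorsion (W k ⧸ P) := by
    intro q
    induction q using QuotientAddGroup.induction_on with
    | H w =>
      rw [isOfFinAddOrder_iff_nsmul_eq_zero]
      refine ⟨E, hE, ?_⟩
      have : E • (w : W k ⧸ P) = ((E • w : W k) : W k ⧸ P) := rfl
      rw [this, QuotientAddGroup.eq_zero_iff]
      exact hEP w
  have hfg : AddGroup.FG (W k) := Module.Finite.iff_addGroup_fg.1 inferInstance
  have hfg2 : AddGroup.FG (W k ⧸ P) := inferInstance
  have hfin : Finite (W k ⧸ P) := AddCommGroup.finite_of_fg_isAddTorsion _ h1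
  exact AddSubgroup.index_ne_zero_of_finite

theorem NN_eq (P : AddSubgroup (W k)) : NN P = P ⊓ (P.comap (Dh k) ⊓
    (P.comap ((Dh k).comp (Dh k)) ⊓ P.comap ((Dh k).comp ((Dh k).comp (Dh k))))) := rfl

theorem NN_relIndex {R P : AddSubgroup (W k)} {E : ℕ} (hPR : P.relIndex R ≤ E)
    (h0 : P.relIndex R ≠ 0) (hRD : ∀ x ∈ R, Dn x ∈ R) : (NN P).relIndex R ≤ E ^ 4 := by
  have key : ∀ f : W k →+ W k, R.map f ≤ R → (P.comap f).relIndex R ≤ E := by
    intro f hf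
    rw [AddSubgroup.relIndex_comap]
    exact (AddSubgroup.relIndex_le_of_le_right hf h0).trans hPR
  have d1 : R.map (Dh k) ≤ R := by
    rintro _ ⟨x, hx, rfl⟩
    exact hRD x hx
  have d2 : R.map ((Dh k).comp (Dh k)) ≤ R := by
    rintro _ ⟨x, hx, rfl⟩
    exact hRD _ (hRD x hx)
  have d3 : R.map ((Dh k).comp ((Dh k).comp (Dh k))) ≤ R := by
    rintro _ ⟨x, hx, rfl⟩
    exact hRD _ (hRD _ (hRD x hx))
  rw [NN_eq]
  calc _ ≤ P.relIndex R * _ := AddSubgroup.relIndex_inf_le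
    _ ≤ E * (E * (E * E)) := by
        refine Nat.mul_le_mul hPR (AddSubgroup.relIndex_inf_le.trans
          (Nat.mul_le_mul (key _ d1) (AddSubgroup.relIndex_inf_le.trans
            (Nat.mul_le_mul (key _ d2) (key _ d3)))))
    _ = E ^ 4 := by ring

theorem NG_index {a E : ℕ} {R P : AddSubgroup (W k)} (ha : 0 < a) (hE : 0 < E) (hPR : P ≤ R)
    (hPE : P.relIndex R ≤ E) (hRD : ∀ x ∈ R, Dn x ∈ R)
    (hRP : ∀ x ∈ R, ∀ y : W k, Bf x y ∈ P) (hEP : ∀ w : W k, E • w ∈ P) :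
    (NG k a E R P hPR hRP).index ≠ 0 ∧
      (NG k a E R P hPR hRP).index ≤ a * 40320 * E ^ 5 * R.index := by
  have hP0 := index_ne_zero_of_smul hE hEP
  have hP1 : P.relIndex R ≠ 0 := by
    intro h
    have := AddSubgroup.relIndex_mul_index hPR
    rw [h, zero_mul] at this
    exact hP0 this.symm
  have hN0 : (NN P).index ≠ 0 := index_ne_zero_of_smul hE (NN_E hEP)
  have hNR : NN P ≤ R := fun x hx => hPR hx.1
  have hNi : (NN P).index ≤ E ^ 4 * R.index := by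
    rw [← AddSubgroup.relIndex_mul_index hNR]
    exact Nat.mul_le_mul (NN_relIndex hPE hP1 hRD) le_rfl
  set Q : ℕ := a * 40320 * E with hQ
  have hQ0 : 0 < Q := by positivity
  have : NeZero Q := ⟨hQ0.ne'⟩
  have hfi : (NN P).FiniteIndex := ⟨hN0⟩
  have hfin : Finite (W k ⧸ NN P) := inferInstance
  set N := NG k a E R P hPR hRP with hN
  set f : Gp k ⧸ N → ZMod Q × (W k ⧸ NN P) := fun q =>
    (((Quotient.out q).m : ZMod Q), (((Quotient.out q).x : W k) : W k ⧸ NN P)) with hf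
  have hinj : Function.Injective f := by
    intro q q' hqq
    have h1 : (((Quotient.out q).m : ℤ) : ZMod Q) = ((Quotient.out q').m : ℤ) :=
      congrArg Prod.fst hqq
    have h2 : (((Quotient.out q).x : W k) : W k ⧸ NN P) = ((Quotient.out q').x : W k) :=
      congrArg Prod.snd hqq
    rw [ZMod.intCast_eq_intCast_iff_dvd_sub] at h1
    rw [QuotientAddGroup.eq] at h2
    have h3 : (Quotient.out q)⁻¹ * Quotient.out q' ∈ N := by
      apply NG_coset hPR hRP h1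
      have e : (Quotient.out q').x - (Quotient.out q).x =
          -(Quotient.out q).x + (Quotient.out q').x := by abel
      rw [e]
      exact h2
    rw [← Quotient.out_eq q, ← Quotient.out_eq q']
    exact QuotientGroup.eq.2 h3
  have hfinQ : Finite (Gp k ⧸ N) := Finite.of_injective f hinj
  refine ⟨Subgroup.index_ne_zero_of_finite, ?_⟩
  have hc := Nat.card_le_card_of_injective f hinj
  rw [Nat.card_prod, Nat.card_zmod] at hc
  calc N.index = Nat.card (Gp k ⧸ N) := rfl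
    _ ≤ Q * (NN P).index := hc
    _ ≤ Q * (E ^ 4 * R.index) := Nat.mul_le_mul le_rfl hNi
    _ = _ := by rw [hQ]; ring

theorem sp2 (hp : PwrStmt) : Sp2Stmt := by
  intro k H a₀ hTr R P E hE hPR _hRi hPE hRD _hRB hEP hRP hHP z hzR hzP
  obtain ⟨ha0, hTm, hTr⟩ := hTr
  obtain ⟨hi0, hi⟩ := NG_index ha0 hE hPR hPE hRD hRP hEP
  have hnorm := NG_normal (a := a₀) hPR hRP hEP
  set N := NG k a₀ E R P hPR hRP with hN
  have hmain : ∀ h ∈ H, ∀ n ∈ N, h.m = 0 → h * n ≠ ⟨0, z⟩ := by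
    intro h hh n hn hm heq
    apply hzP
    have e1 : h.m + n.m = 0 := congrArg Gp.m heq
    have e2 : h.x + tp h.m n.x + Bf h.x (tp h.m n.x) = z := congrArg Gp.x heq
    rw [hm, tp_zero] at e2
    have hnP : n.x ∈ P := hn.2.1
    have hnB : Bf h.x n.x ∈ P := (NN_B' hRP (hPR hnP) h.x).1
    have hxR : h.x ∈ R := by
      have : h.x = z - n.x - Bf h.x n.x := by rw [← e2]; abel
      rw [this]
      exact R.sub_mem (R.sub_mem hzR (hPR hnP)) (hPR hnB)
    have hxP : h.x ∈ P := by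
      apply hHP _ hxR
      rw [← Gp.eta0 hm]
      exact hh
    rw [← e2]
    exact P.add_mem (P.add_mem hxP hnP) hnB
  have hnot : (⟨0, z⟩ : Gp k) ∉ H ⊔ N := by
    intro hmem
    rw [Subgroup.mem_sup_of_normal_right] at hmem
    obtain ⟨h, hh, n, hn, heq⟩ := hmem
    have e1 : h.m + n.m = 0 := congrArg Gp.m heq
    rcases hTr with hT | ⟨h1, hh1, hm1⟩
    · exact hmain h hh n hn (hT h hh) heq
    · obtain ⟨y, hy⟩ := hp k h1 E
      have hu1 : (h1 ^ (40320 * E)).m = ((a₀ * 40320 * E : ℕ) : ℤ) := by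
        rw [hy]
        change (40320 : ℤ) * E * h1.m = _
        rw [hm1]
        push_cast
        ring
      have huN : h1 ^ (40320 * E) ∈ N := by
        refine ⟨?_, ?_⟩
        · rw [hu1]
        · rw [hy]
          exact NN_E hEP y
      have huH : h1 ^ (40320 * E) ∈ H := H.pow_mem hh1 _
      set u := h1 ^ (40320 * E) with hu
      obtain ⟨j, hj⟩ := hn.1
      have hzp : ∀ (g : Gp k) (i : ℤ), (g ^ i).m = i * g.m := by
        intro g i
        induction i with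
        | zero => simp
        | succ i ih =>
          rw [zpow_add_one, Gp.mul_m, ih]
          ring
        | pred i ih =>
          rw [zpow_sub_one, Gp.mul_m, ih, Gp.inv_m]
          ring
      apply hmain (h * u ^ j) (H.mul_mem hh (H.zpow_mem huH j)) (u ^ (-j) * n)
        (N.mul_mem (N.zpow_mem huN _) hn)
      · rw [Gp.mul_m, hzp, hu1]
        rw [hj] at e1
        linarith
      · rw [← heq]
        group
  have := relDepth_le_index H N (⟨0, z⟩ : Gp k) hi0 hnot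
  refine this.trans ?_
  exact_mod_cast hi

end Pool.Agent.SBG.H85
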